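import Pool.Agent.MVD.Stmts

/-!
# Squad MVD, row TRC (helper6): exchanges of adjacent independent letters
-/

set_option autoImplicit false

namespace Pool.Agent.MVD.H6

open Pool.Agent.MVD

theorem bfr_iff {R : List ℕ} {a b : ℕ} : Bfr R a b ↔ [a, b].Sublist R := by
  constructor
  · rintro ⟨A, B, C, rfl⟩
    refine List.Sublist.trans ?_ (List.sublist_append_right A _)
    refine List.Sublist.cons_cons a ?_
    rw [List.singleton_sublist]
    simp
  · intro h
    rw [List.cons_sublist_iff] at h
    obtain ⟨r₁, r₂, rfl, ha, hb⟩ := h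
    rw [List.singleton_sublist] at hb
    obtain ⟨A, B, rfl⟩ := List.append_of_mem ha
    obtain ⟨B', C, rfl⟩ := List.append_of_mem hb
    exact ⟨A, B ++ B', C, by simp⟩

theorem Bfr.mono {R R' : List ℕ} {a b : ℕ} (h : Bfr R a b) (hR : R.Sublist R') : Bfr R' a b :=
  bfr_iff.2 ((bfr_iff.1 h).trans hR)

/-- Moving a letter to the front. -/
theorem front {I : ℕ → ℕ → Prop} {E : List ℕ → List ℕ → Prop} {H : List ℕ}
    (hr : ∀ a, E a a) (ht : ∀ a b c, E a b → E b c → E a c)
    (hx : ∀ (A C : List ℕ) (u v : ℕ), (A ++ u :: v :: C).Perm H → I u v →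
      E (A ++ u :: v :: C) (A ++ v :: u :: C)) (P : List ℕ) (a : ℕ) (u : List ℕ) :
    ∀ v : List ℕ, (P ++ (u ++ a :: v)).Perm H → (∀ b ∈ u, I b a) →
      E (P ++ (u ++ a :: v)) (P ++ a :: (u ++ v)) := by
  induction u using List.reverseRecOn with
  | nil => intro v _ _; exact hr _
  | append_singleton u b ih =>
    intro v hp hI
    have h1 : E (P ++ (u ++ [b] ++ a :: v)) (P ++ (u ++ a :: (b :: v))) := by
      have h2 := hx (P ++ u) v b a (by simpa [List.append_assoc] using hp) (hI b (by simp))
      simpa [List.append_assoc] using h2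
    have h3 : (P ++ (u ++ a :: (b :: v))).Perm H := by
      refine List.Perm.trans ?_ hp
      refine List.Perm.append_left P ?_
      rw [List.append_assoc]
      refine List.Perm.append_left u ?_
      exact List.Perm.swap b a v
    have h4 := ih (b :: v) h3 (fun c hc => hI c (by simp [hc]))
    have h5 : P ++ a :: (u ++ (b :: v)) = P ++ a :: (u ++ [b] ++ v) := by simp
    rw [h5] at h4
    exact ht _ _ _ h1 h4

theorem trc_aux {I : ℕ → ℕ → Prop} {E : List ℕ → List ℕ → Prop} {H : List ℕ}
    (hr : ∀ a, E a a) (ht : ∀ a b c, E a b → E b c → E a c)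
    (hx : ∀ (A C : List ℕ) (u v : ℕ), (A ++ u :: v :: C).Perm H → I u v →
      E (A ++ u :: v :: C) (A ++ v :: u :: C)) (h' : List ℕ) :
    ∀ P h : List ℕ, (P ++ h).Perm H → h.Nodup → h'.Perm h →
      (∀ u v, Bfr h u v → Bfr h' v u → I u v) → E (P ++ h) (P ++ h') := by
  induction h' with
  | nil =>
    intro P h _ _ hp _
    have : h = [] := hp.symm.eq_nil
    subst this
    exact hr _
  | cons a h'' ih =>
    intro P h hH hnd hp hI
    have ha : a ∈ h := hp.mem_iff.1 (by simp)
    obtain ⟨u, v, rfl⟩ := List.append_of_mem ha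
    have hmid : (u ++ a :: v).Perm (a :: (u ++ v)) := List.perm_middle
    have hnd2 : (a :: (u ++ v)).Nodup := hmid.nodup_iff.1 hnd
    have hp2 : h''.Perm (u ++ v) := (hp.trans hmid).cons_inv
    have hIb : ∀ b ∈ u, I b a := by
      intro b hb
      refine hI b a ?_ ?_
      · obtain ⟨u1, u2, rfl⟩ := List.append_of_mem hb
        exact ⟨u1, u2, v, by simp⟩
      · have hb2 : b ∈ h'' := hp2.mem_iff.2 (by simp [hb])
        obtain ⟨c1, c2, rfl⟩ := List.append_of_mem hb2
        exact ⟨[], c1, c2, by simp⟩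
    have h1 := front hr ht hx P a u v hH hIb
    have h2 : ((P ++ [a]) ++ (u ++ v)).Perm H := by
      refine List.Perm.trans ?_ hH
      rw [List.append_assoc]
      exact List.Perm.append_left P hmid.symm
    have h3 := ih (P ++ [a]) (u ++ v) h2 (List.nodup_cons.1 hnd2).2 hp2 (by
      intro b c hb hc
      refine hI b c (Bfr.mono hb ?_) (Bfr.mono hc (List.sublist_cons_self a h''))
      exact List.Sublist.append_left (List.sublist_cons_self a v) u)
    have h4 : E (P ++ a :: (u ++ v)) (P ++ a :: h'') := by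
      simpa [List.append_assoc] using h3
    exact ht _ _ _ h1 h4

theorem trc : TrcStmt := by
  intro I E h h' hr ht hx hnd hp hI
  have h1 := trc_aux (I := I) (E := E) (H := h) hr ht hx h' [] h (by simp) hnd hp hI
  simpa using h1

end Pool.Agent.MVD.H6
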